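import Pool.Agent.H174.GP.StA
import Pool.Agent.H174.GP.StP
import Pool.Agent.H174.GP.StC
import Pool.Agent.H174.GP.StB

open MeasureTheory Finset Filter Topology

namespace Pool.Agent.H296.GP174

open Pool.Agent.H174.GP

theorem b4l_pD (D : ℕ) (σ s2 : ℝ) (hσ : 0 < σ) (h : σ * D ≤ s2) :
    Real.exp (-(2 * s2)) / 2 ≤ pD D σ ∧ 0 ≤ pD D σ ∧ pD D σ ≤ 1 := by
  unfold pD
  have he : 0 < Real.exp (-(2 * σ * D)) := Real.exp_pos _
  have h0 : (0:ℝ) ≤ σ * D := by positivity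
  have hmono : Real.exp (-(2 * s2)) ≤ Real.exp (-(2 * σ * D)) := Real.exp_le_exp.mpr (by nlinarith)
  have h1 : Real.exp (-(2 * σ * D)) ≤ 1 := Real.exp_le_one_iff.mpr (by nlinarith)
  have h3 : 0 < Real.exp (-(2 * s2)) := Real.exp_pos _
  refine ⟨?_, by positivity, ?_⟩
  · rw [div_le_div_iff₀ (by norm_num) (by positivity)]
    nlinarith
  · rw [div_le_one (by positivity)]
    linarith

theorem b4l_beta_nonneg (D : ℕ) (σ : ℝ) (n t : ℕ) (hσ : 0 < σ) : 0 ≤ beta D σ n t := by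
  have hp := b4l_pD D σ (σ * D) hσ le_rfl
  unfold beta
  apply Finset.sum_nonneg
  intro b _
  split_ifs
  · apply mul_nonneg
    · unfold bn
      have : 0 ≤ 1 - pD D σ := by linarith [hp.2.2]
      have h2 := hp.2.1
      positivity
    · apply mul_nonneg
      · have : Real.exp (-(2 * σ)) ≤ 1 := Real.exp_le_one_iff.mpr (by linarith)
        linarith
      · exact (Real.exp_pos _).le
  · exact le_rfl

/-- the purely algebraic core -/
theorem b4l_core (D m' : ℕ) (c C1 K E4 Q1 : ℝ) (q : ℕ → ℕ → ℝ) (b B : ℕ → ℕ → ℝ)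
    (hq : ∀ n k, 0 ≤ q n k) (hC1 : 0 ≤ C1) (hK : 0 ≤ K) (hE4 : 0 ≤ E4)
    (hB : ∀ n k, 0 ≤ B n k)
    (h1 : ∀ n k, b n k ≤ C1)
    (h2 : ∀ n ∈ Finset.range (D + 1), ¬ ((n : ℝ) < c * D) →
      ∀ k ∈ Finset.range (m' + 1), b n k ≤ K * B n k + E4)
    (hs1 : ∑ n ∈ Finset.range (D + 1), ∑ k ∈ Finset.range (m' + 1), q n k ≤ 1)
    (hs2 : ∑ n ∈ (Finset.range (D + 1)).filter (fun n : ℕ => (n : ℝ) < c * (D : ℝ)),
      ∑ k ∈ Finset.range (m' + 1), q n k ≤ Q1) :
    ∑ n ∈ Finset.range (D + 1), ∑ k ∈ Finset.range (m' + 1), q n k * b n k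
      ≤ C1 * Q1 + K * (∑ n ∈ Finset.range (D + 1), ∑ k ∈ Finset.range (m' + 1), q n k * B n k)
        + E4 := by
  have step : ∀ n ∈ Finset.range (D + 1), ∑ k ∈ Finset.range (m' + 1), q n k * b n k ≤
      (if (n : ℝ) < c * D then C1 * ∑ k ∈ Finset.range (m' + 1), q n k else 0)
      + K * (∑ k ∈ Finset.range (m' + 1), q n k * B n k)
      + E4 * ∑ k ∈ Finset.range (m' + 1), q n k := by
    intro n hn
    have hqs : 0 ≤ ∑ k ∈ Finset.range (m' + 1), q n k := Finset.sum_nonneg (fun k _ => hq n k)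
    have hqB : 0 ≤ ∑ k ∈ Finset.range (m' + 1), q n k * B n k :=
      Finset.sum_nonneg (fun k _ => mul_nonneg (hq n k) (hB n k))
    by_cases hc : (n : ℝ) < c * D
    · rw [if_pos hc]
      have : ∑ k ∈ Finset.range (m' + 1), q n k * b n k ≤ C1 * ∑ k ∈ Finset.range (m' + 1), q n k := by
        rw [Finset.mul_sum]
        apply Finset.sum_le_sum
        intro k _
        rw [mul_comm C1]
        exact mul_le_mul_of_nonneg_left (h1 n k) (hq n k)
      have h3 := mul_nonneg hK hqB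
      have h4 := mul_nonneg hE4 hqs
      linarith
    · rw [if_neg hc, zero_add, Finset.mul_sum, Finset.mul_sum, ← Finset.sum_add_distrib]
      apply Finset.sum_le_sum
      intro k hk
      have := mul_le_mul_of_nonneg_left (h2 n hn hc k hk) (hq n k)
      nlinarith
  refine (Finset.sum_le_sum step).trans ?_
  rw [Finset.sum_add_distrib, Finset.sum_add_distrib, ← Finset.mul_sum, ← Finset.mul_sum,
    ← Finset.sum_filter, ← Finset.mul_sum]
  have h5 : C1 * ∑ n ∈ (Finset.range (D + 1)).filter (fun n : ℕ => (n : ℝ) < c * (D : ℝ)),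
      ∑ k ∈ Finset.range (m' + 1), q n k ≤ C1 * Q1 := mul_le_mul_of_nonneg_left hs2 hC1
  have h6 : E4 * ∑ n ∈ Finset.range (D + 1), ∑ k ∈ Finset.range (m' + 1), q n k ≤ E4 * 1 :=
    mul_le_mul_of_nonneg_left hs1 hE4
  linarith

/-- the asymptotic conditions -/
theorem b4l_large (Ca ca C1 C2 ε1 ε c c' p0 : ℝ) (hε1 : 0 < ε1) (hca : 0 < ca)
    (hε : 0 < ε) (hc : 0 < c) (hc' : 0 < c') (hp0 : 0 < p0) :
    ∃ d0 : ℕ, ∀ d : ℕ, d0 ≤ d →
      20 * Ca ≤ Real.sqrt (ε1 * Real.log d) ∧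
      (∀ x : ℝ, (d : ℝ) / 4 ≤ x → 11 * Real.sqrt (Real.log x) ≤ c * p0 * Real.sqrt x) ∧
      C1 * Real.exp (-(c' * ((d : ℝ) / 4))) + ((d : ℝ) / 4) ^ (-4 : ℝ) ≤
        (ca / 2) * (d : ℝ) ^ (-(3 / 2) : ℝ) ∧
      2 * C2 / ca ≤ (d : ℝ) ^ (ε / 2) := by
  have e1 : ∀ᶠ x : ℝ in atTop, 20 * Ca ≤ Real.sqrt (ε1 * Real.log x) := by
    have : Tendsto (fun x : ℝ => Real.sqrt (ε1 * Real.log x)) atTop atTop :=
      Real.tendsto_sqrt_atTop.comp (Real.tendsto_log_atTop.const_mul_atTop hε1)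
    exact this.eventually_ge_atTop _
  have e2 : ∃ x0 : ℝ, ∀ x : ℝ, x0 ≤ x → 11 * Real.sqrt (Real.log x) ≤ c * p0 * Real.sqrt x := by
    have hδ : 0 < (c * p0 / 11) ^ 2 := by positivity
    have h1 := Real.isLittleO_log_id_atTop.def hδ
    have h2 : ∀ᶠ x : ℝ in atTop, 11 * Real.sqrt (Real.log x) ≤ c * p0 * Real.sqrt x := by
      filter_upwards [h1, eventually_ge_atTop (1 : ℝ)] with x hx hx1
      rw [Real.norm_eq_abs, Real.norm_eq_abs, id, abs_of_nonneg (Real.log_nonneg hx1),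
        abs_of_nonneg (by linarith : (0:ℝ) ≤ x)] at hx
      have h3 : Real.sqrt (Real.log x) ≤ c * p0 / 11 * Real.sqrt x := by
        have h4 := Real.sqrt_le_sqrt hx
        rw [Real.sqrt_mul (by positivity), Real.sqrt_sq (by positivity)] at h4
        exact h4
      linarith
    exact eventually_atTop.mp h2
  obtain ⟨x0, hx0⟩ := e2
  have e3 : ∀ᶠ x : ℝ in atTop, C1 * Real.exp (-(c' * (x / 4))) + (x / 4) ^ (-4 : ℝ) ≤
        (ca / 2) * x ^ (-(3 / 2) : ℝ) := by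
    have t1 : Tendsto (fun x : ℝ => C1 * (x ^ (3 / 2 : ℝ) * Real.exp (-(c' / 4) * x))) atTop
        (𝓝 (C1 * 0)) :=
      (tendsto_rpow_mul_exp_neg_mul_atTop_nhds_zero (3 / 2) (c' / 4) (by positivity)).const_mul C1
    have t2 : Tendsto (fun x : ℝ => (256 : ℝ) * x ^ (-(5 / 2 : ℝ))) atTop (𝓝 (256 * 0)) :=
      (tendsto_rpow_neg_atTop (by norm_num : (0:ℝ) < 5 / 2)).const_mul 256
    rw [mul_zero] at t1 t2
    filter_upwards [t1.eventually_lt_const (show (0:ℝ) < ca / 4 by positivity),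
      t2.eventually_lt_const (show (0:ℝ) < ca / 4 by positivity), eventually_gt_atTop (0:ℝ)]
      with x h1 h2 hx
    have hx32 : 0 < x ^ (-(3 / 2) : ℝ) := Real.rpow_pos_of_pos hx _
    have hr : x ^ (3 / 2 : ℝ) * x ^ (-(3 / 2) : ℝ) = 1 := by
      rw [← Real.rpow_add hx]
      norm_num
    have h3 : C1 * Real.exp (-(c' * (x / 4))) ≤ ca / 4 * x ^ (-(3 / 2) : ℝ) := by
      have h4 : C1 * Real.exp (-(c' * (x / 4))) =
          C1 * (x ^ (3 / 2 : ℝ) * Real.exp (-(c' / 4) * x)) * x ^ (-(3 / 2) : ℝ) := by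
        have : -(c' * (x / 4)) = -(c' / 4) * x := by ring
        rw [this]
        calc C1 * Real.exp (-(c' / 4) * x)
            = C1 * Real.exp (-(c' / 4) * x) * (x ^ (3 / 2 : ℝ) * x ^ (-(3 / 2) : ℝ)) := by
              rw [hr, mul_one]
          _ = _ := by ring
      rw [h4]
      exact mul_le_mul_of_nonneg_right h1.le hx32.le
    have h5 : (x / 4) ^ (-4 : ℝ) ≤ ca / 4 * x ^ (-(3 / 2) : ℝ) := by
      have h6 : (x / 4) ^ (-4 : ℝ) = 256 * x ^ (-(5 / 2 : ℝ)) * x ^ (-(3 / 2) : ℝ) := by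
        rw [mul_assoc, ← Real.rpow_add hx, Real.div_rpow hx.le (by norm_num)]
        have a1 : (-(5 / 2 : ℝ) + -(3 / 2)) = -4 := by norm_num
        rw [a1]
        have a2 : (4 : ℝ) ^ (-4 : ℝ) = 1 / 256 := by
          rw [Real.rpow_neg (by norm_num)]
          have : (4:ℝ) ^ (4:ℝ) = 256 := by
            have := Real.rpow_natCast (4:ℝ) 4
            push_cast at this
            rw [this]
            norm_num
          rw [this]
          norm_num
        rw [a2]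
        field_simp
      rw [h6]
      exact mul_le_mul_of_nonneg_right h2.le hx32.le
    linarith
  have e4 : ∀ᶠ x : ℝ in atTop, 2 * C2 / ca ≤ x ^ (ε / 2) :=
    (tendsto_rpow_atTop (by positivity : (0:ℝ) < ε / 2)).eventually_ge_atTop _
  have e5 : ∀ᶠ x : ℝ in atTop, 4 * x0 ≤ x := eventually_ge_atTop _
  have eall := (tendsto_natCast_atTop_atTop (R := ℝ)).eventually (e1.and (e3.and (e4.and e5)))
  obtain ⟨d0, hd0⟩ := eventually_atTop.mp eall
  refine ⟨d0, fun d hd => ?_⟩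
  obtain ⟨a1, a3, a4, a5⟩ := hd0 d hd
  refine ⟨a1, ?_, a3, a4⟩
  intro x hx
  apply hx0
  linarith


set_option maxHeartbeats 4000000 in
theorem gp_b4l (h1 : S_acheb) (h2 : S_decomp) (h3 : S_beta1) (h4 : S_beta2) (h5 : S_beta3) :
    Pool.Agent.H174.GP.S_B4l := by
  intro s1 s2 ε hs1 hs2 hε
  obtain ⟨Ca, hCa, ca, hca, d1, hd1⟩ := h1 s1 s2 hs1 hs2
  obtain ⟨c, hc0, hc1, c', hc', d2, hd2', hd2⟩ := h2 s1 s2 hs1 hs2
  obtain ⟨C1, hC1, hb1⟩ := h3 (s1 / 4) s2 (by positivity) hs2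
  obtain ⟨C2, hC2, hb2⟩ := h4 (s1 / 4) s2 c (by positivity) hs2 hc0
  set ε1 : ℝ := min 1 ((ε / (2 * C2)) ^ 2) with hε1def
  have hε1 : 0 < ε1 := lt_min one_pos (by positivity)
  have hε1' : ε1 ≤ 1 := min_le_left _ _
  have hCε : C2 * Real.sqrt ε1 ≤ ε / 2 := by
    have h6 : Real.sqrt ε1 ≤ ε / (2 * C2) := by
      have := Real.sqrt_le_sqrt (min_le_right (1:ℝ) ((ε / (2 * C2)) ^ 2))
      rw [Real.sqrt_sq (by positivity)] at this
      exact this
    calc C2 * Real.sqrt ε1 ≤ C2 * (ε / (2 * C2)) := by gcongr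
      _ = ε / 2 := by field_simp
  obtain ⟨D1, hD1⟩ := hb2 ε1 hε1 hε1'
  obtain ⟨D2, hD2⟩ := h5 (s1 / 4) s2 (by positivity) hs2
  set p0 : ℝ := Real.exp (-(2 * s2)) / 2 with hp0def
  have hp0 : 0 < p0 := by positivity
  obtain ⟨d3, hd3⟩ := b4l_large Ca ca C1 C2 ε1 ε c c' p0 hε1 hca hε hc0 hc' hp0
  refine ⟨ε1 / 1024, by positivity, max (max (max d1 d2) (max d3 16)) (max (4 * D1) (4 * D2)), ?_⟩
  intro d hd σ hσ hσ1 hσ2 m hm
  have hdd1 : d1 ≤ d := le_trans (le_trans (le_trans (le_max_left _ _) (le_max_left _ _)) (le_max_left _ _)) hd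
  have hdd2 : d2 ≤ d := le_trans (le_trans (le_trans (le_max_right _ _) (le_max_left _ _)) (le_max_left _ _)) hd
  have hdd3 : d3 ≤ d := le_trans (le_trans (le_trans (le_max_left _ _) (le_max_right _ _)) (le_max_left _ _)) hd
  have hd16 : 16 ≤ d := le_trans (le_trans (le_trans (le_max_right _ _) (le_max_right _ _)) (le_max_left _ _)) hd
  have hdD1 : 4 * D1 ≤ d := le_trans (le_trans (le_max_left _ _) (le_max_right _ _)) hd
  have hdD2 : 4 * D2 ≤ d := le_trans (le_trans (le_max_right _ _) (le_max_right _ _)) hd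
  obtain ⟨l1, l2, l3, l4⟩ := hd3 d hdd3
  set D : ℕ := d / 3 with hD
  have hD4 : d ≤ 4 * D := by omega
  have hDd : D ≤ d := by omega
  have hDge1 : 1 ≤ D := by omega
  have hDD1 : D1 ≤ D := by omega
  have hDD2 : D2 ≤ D := by omega
  have rD4 : (d : ℝ) / 4 ≤ D := by
    have : (d : ℝ) ≤ 4 * D := by exact_mod_cast hD4
    linarith
  have rDd : (D : ℝ) ≤ d := by exact_mod_cast hDd
  have rd16 : (16 : ℝ) ≤ d := by exact_mod_cast hd16
  have rDpos : (0 : ℝ) < D := by linarith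
  have rdpos : (0 : ℝ) < d := by linarith
  have hσD1 : s1 / 4 ≤ σ * D := by nlinarith
  have hσD2 : σ * D ≤ s2 := le_trans (by nlinarith) hσ2
  obtain ⟨m', hm'1, hm'2⟩ := hd1 d hdd1 σ hσ hσ1 hσ2
  obtain ⟨q, hq0, hq1, hq2, hq3⟩ := hd2 d hdd2 σ hσ hσ1 hσ2
  have hpD := b4l_pD D σ s2 hσ hσD2
  -- logarithms
  have hlogd : 0 < Real.log d := Real.log_pos (by linarith)
  have hlogD : Real.log d / 2 ≤ Real.log D := by
    have h6 : Real.log ((d : ℝ) / 4) ≤ Real.log D := Real.log_le_log (by positivity) rD4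
    have h7 : Real.log ((d : ℝ) / 4) = Real.log d - Real.log 4 := Real.log_div (by positivity) (by norm_num)
    have h8 : 2 * Real.log 4 ≤ Real.log d := by
      have : Real.log ((4 : ℝ) ^ 2) ≤ Real.log d := Real.log_le_log (by norm_num) (by norm_num; linarith)
      rw [Real.log_pow] at this
      push_cast at this
      exact this
    linarith
  have hlogD0 : 0 < Real.log D := by linarith
  -- powers
  have hd32 : (0 : ℝ) < (d : ℝ) ^ (3 / 2 : ℝ) := Real.rpow_pos_of_pos rdpos _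
  have hD32 : (0 : ℝ) < (D : ℝ) ^ (3 / 2 : ℝ) := Real.rpow_pos_of_pos rDpos _
  have hpow : (d : ℝ) ^ (3 / 2 : ℝ) ≤ 8 * (D : ℝ) ^ (3 / 2 : ℝ) := by
    have h6 : (d : ℝ) ^ (3 / 2 : ℝ) ≤ (4 * D : ℝ) ^ (3 / 2 : ℝ) :=
      Real.rpow_le_rpow rdpos.le (by linarith) (by norm_num)
    rw [Real.mul_rpow (by norm_num) rDpos.le] at h6
    have h7 : (4 : ℝ) ^ (3 / 2 : ℝ) = 8 := by
      have : (4 : ℝ) = 2 ^ (2 : ℝ) := by
        have := Real.rpow_natCast (2:ℝ) 2
        push_cast at this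
        rw [this]
        norm_num
      rw [this, ← Real.rpow_mul (by norm_num)]
      have h9 : (2 : ℝ) * (3 / 2) = ((3 : ℕ) : ℝ) := by norm_num
      rw [h9, Real.rpow_natCast]
      norm_num
    rw [h7] at h6
    exact h6
  -- distance of m and m'
  have hmm : |(m : ℝ) - m'| ≤ Real.sqrt (ε1 * Real.log D) * (D : ℝ) ^ (3 / 2 : ℝ) := by
    have h6 : |(m : ℝ) - m'| ≤ |(m : ℝ) - mu d σ| + |(m' : ℝ) - mu d σ| := by
      have := abs_sub_le (m : ℝ) (mu d σ) m'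
      rwa [abs_sub_comm (mu d σ) (m' : ℝ)] at this
    have h7 : Real.sqrt (ε1 / 1024 * Real.log d) = Real.sqrt (ε1 * Real.log d) / 32 := by
      have : ε1 / 1024 * Real.log d = (ε1 * Real.log d) / 32 ^ 2 := by ring
      rw [this, Real.sqrt_div' _ (by positivity), Real.sqrt_sq (by norm_num)]
    rw [h7] at hm
    set Lg := Real.sqrt (ε1 * Real.log d) with hLg
    have h8 : Lg / 12 * 8 ≤ Real.sqrt (ε1 * Real.log D) := by
      have : Lg * (2 / 3) ≤ Real.sqrt (ε1 * Real.log D) := by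
        apply Real.le_sqrt_of_sq_le
        rw [mul_pow, hLg, Real.sq_sqrt (by positivity)]
        nlinarith [mul_le_mul_of_nonneg_left hlogD hε1.le, mul_pos hε1 hlogd]
      linarith
    have hLg0 : 0 ≤ Lg := Real.sqrt_nonneg _
    calc |(m : ℝ) - m'| ≤ Lg / 32 * (d : ℝ) ^ (3 / 2 : ℝ) + Ca * (d : ℝ) ^ (3 / 2 : ℝ) := by linarith
      _ ≤ Lg / 12 * (d : ℝ) ^ (3 / 2 : ℝ) := by
        rw [← add_mul]
        apply mul_le_mul_of_nonneg_right _ hd32.le
        linarith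
      _ ≤ Lg / 12 * (8 * (D : ℝ) ^ (3 / 2 : ℝ)) := by
        apply mul_le_mul_of_nonneg_left hpow
        positivity
      _ = Lg / 12 * 8 * (D : ℝ) ^ (3 / 2 : ℝ) := by ring
      _ ≤ Real.sqrt (ε1 * Real.log D) * (D : ℝ) ^ (3 / 2 : ℝ) :=
        mul_le_mul_of_nonneg_right h8 hD32.le
  -- the comparison function
  set B : ℕ → ℕ → ℝ := fun n k => if (k : ℤ) ≤ m then beta D σ n (m - k).toNat else 0 with hBdef
  have hB0 : ∀ n k, 0 ≤ B n k := by
    intro n k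
    rw [hBdef]
    simp only
    split_ifs
    · exact b4l_beta_nonneg D σ n _ hσ
    · exact le_rfl
  set K : ℝ := C2 * (D : ℝ) ^ (C2 * Real.sqrt ε1) with hKdef
  have hK0 : 0 < K := mul_pos hC2 (Real.rpow_pos_of_pos rDpos _)
  have hE40 : 0 ≤ (D : ℝ) ^ (-4 : ℝ) := (Real.rpow_pos_of_pos rDpos _).le
  have rD1 : (1 : ℝ) ≤ D := by exact_mod_cast hDge1
  have hbC1 : ∀ n k : ℕ, beta D σ n (m' - k) ≤ C1 := by
    intro n k
    refine (hb1 D σ hDge1 hσ hσD1 hσD2 n (m' - k)).trans ?_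
    rw [div_le_iff₀ (by positivity)]
    have h6 : 1 ≤ Real.sqrt ((n : ℝ) + 1) := by
      rw [Real.one_le_sqrt]
      have : (0 : ℝ) ≤ n := Nat.cast_nonneg n
      linarith
    have h7 : 1 ≤ (D : ℝ) * Real.sqrt ((n : ℝ) + 1) := by nlinarith
    nlinarith
  have hsq : Real.sqrt D * (D : ℝ) ^ (3 / 2 : ℝ) = (D : ℝ) ^ 2 := by
    rw [Real.sqrt_eq_rpow, ← Real.rpow_add rDpos]
    norm_num
  have hl2 := l2 D rD4
  have hsε : Real.sqrt (ε1 * Real.log D) ≤ Real.sqrt (Real.log D) :=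
    Real.sqrt_le_sqrt (by nlinarith)
  have hstep : ∀ n ∈ Finset.range (D + 1), ¬ ((n : ℝ) < c * D) →
      ∀ k ∈ Finset.range (m' + 1), beta D σ n (m' - k) ≤ K * B n k + (D : ℝ) ^ (-4 : ℝ) := by
    intro n hn hcn k hk
    push Not at hcn
    have hnD : n ≤ D := by
      have := Finset.mem_range.mp hn
      omega
    have hkm : k ≤ m' := by
      have := Finset.mem_range.mp hk
      omega
    have hn1 : 1 ≤ n := by
      rcases Nat.eq_zero_or_pos n with h | h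
      · exfalso
        rw [h, Nat.cast_zero] at hcn
        have : 0 < c * D := by positivity
        linarith
      · exact h
    have htc : ((m' - k : ℕ) : ℝ) = (m' : ℝ) - k := Nat.cast_sub hkm
    by_cases hfar : 10 * Real.sqrt (Real.log D) * (D : ℝ) ^ (3 / 2 : ℝ) <
        |((m' - k : ℕ) : ℝ) - D * (pD D σ * n)|
    · have := hD2 D hDD2 σ hσ hσD1 hσD2 n (m' - k) hn1 hnD hfar
      have h6 := mul_nonneg hK0.le (hB0 n k)
      linarith
    · push Not at hfar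
      have hlow : c * p0 * (D : ℝ) ^ 2 ≤ D * (pD D σ * n) := by
        have h6 : p0 * (c * D) ≤ pD D σ * n :=
          mul_le_mul hpD.1 hcn (by positivity) hpD.2.1
        calc c * p0 * (D : ℝ) ^ 2 = D * (p0 * (c * D)) := by ring
          _ ≤ D * (pD D σ * n) := mul_le_mul_of_nonneg_left h6 rDpos.le
      have hlow2 : 11 * Real.sqrt (Real.log D) * (D : ℝ) ^ (3 / 2 : ℝ) ≤ c * p0 * (D : ℝ) ^ 2 := by
        rw [← hsq]
        calc 11 * Real.sqrt (Real.log D) * (D : ℝ) ^ (3 / 2 : ℝ)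
            ≤ c * p0 * Real.sqrt D * (D : ℝ) ^ (3 / 2 : ℝ) :=
              mul_le_mul_of_nonneg_right hl2 hD32.le
          _ = _ := by ring
      have hab := (abs_le.mp hfar).1
      have hsεD : Real.sqrt (ε1 * Real.log D) * (D : ℝ) ^ (3 / 2 : ℝ) ≤
          Real.sqrt (Real.log D) * (D : ℝ) ^ (3 / 2 : ℝ) := mul_le_mul_of_nonneg_right hsε hD32.le
      have hmm1 := (abs_le.mp hmm).1
      have hkm2 : (k : ℝ) ≤ (m : ℝ) := by
        rw [htc] at hab
        linarith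
      have hkm3 : (k : ℤ) ≤ m := by exact_mod_cast hkm2
      have hBv : B n k = beta D σ n (m - k).toNat := by
        rw [hBdef]
        simp only [hkm3, if_true]
      have htc' : (((m - k).toNat : ℕ) : ℝ) = (m : ℝ) - k := by
        have h6 : (((m - k).toNat : ℕ) : ℤ) = m - k := Int.toNat_of_nonneg (by linarith)
        have h7 : ((((m - k).toNat : ℕ) : ℤ) : ℝ) = ((m - k : ℤ) : ℝ) := by rw [h6]
        push_cast at h7
        exact h7
      have := hD1 D hDD1 σ hσ hσD1 hσD2 n (m' - k) (m - k).toNat hcn hnD (by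
        rw [htc, htc']
        have h8 : (m' : ℝ) - k - ((m : ℝ) - k) = m' - m := by ring
        rw [h8, abs_sub_comm]
        exact hmm) hfar
      rw [hBv, hKdef]
      exact this
  have hmain := b4l_core D m' c C1 K ((D : ℝ) ^ (-4 : ℝ)) (Real.exp (-(c' * (D : ℝ)))) q
    (fun n k => beta D σ n (m' - k)) B hq0 hC1.le hK0.le hE40 hB0 hbC1 hstep (hq2 (m' + 1))
    (hq3 (m' + 1))
  rw [← hq1 m'] at hmain
  have hsum : ∑ n ∈ Finset.range (D + 1), ∑ k ∈ Finset.range (m' + 1), q n k * B n k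
      ≤ aa d σ m := by
    by_cases hm0 : 0 ≤ m
    · obtain ⟨M, rfl⟩ := Int.eq_ofNat_of_zero_le hm0
      rw [hq1 M]
      apply Finset.sum_le_sum
      intro n _
      have h6 : ∀ k ∈ Finset.range (m' + 1), q n k * B n k =
          if k ≤ M then q n k * beta D σ n (M - k) else 0 := by
        intro k _
        rw [hBdef]
        simp only
        by_cases hkM : k ≤ M
        · have : (k : ℤ) ≤ (M : ℤ) := by exact_mod_cast hkM
          rw [if_pos this, if_pos hkM]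
          congr 2
          omega
        · have : ¬ (k : ℤ) ≤ (M : ℤ) := by
            intro h
            exact hkM (by exact_mod_cast h)
          rw [if_neg this, if_neg hkM, mul_zero]
      rw [Finset.sum_congr rfl h6, ← Finset.sum_filter]
      apply Finset.sum_le_sum_of_subset_of_nonneg
      · intro k hk
        have := (Finset.mem_filter.mp hk).2
        exact Finset.mem_range.mpr (by omega)
      · intro k _ _
        exact mul_nonneg (hq0 n k) (b4l_beta_nonneg D σ n _ hσ)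
    · have h6 : aa d σ m = 0 := by
        unfold aa
        rw [if_neg hm0]
      rw [h6]
      apply le_of_eq
      apply Finset.sum_eq_zero
      intro n _
      apply Finset.sum_eq_zero
      intro k _
      have h7 : ¬ (k : ℤ) ≤ m := by
        intro h
        have : (0 : ℤ) ≤ k := Int.natCast_nonneg k
        omega
      rw [hBdef]
      simp only [h7, if_false, mul_zero]
  -- final estimate
  have hexp : Real.exp (-(c' * (D : ℝ))) ≤ Real.exp (-(c' * ((d : ℝ) / 4))) :=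
    Real.exp_le_exp.mpr (by nlinarith)
  have hD44 : (D : ℝ) ^ (-4 : ℝ) ≤ ((d : ℝ) / 4) ^ (-4 : ℝ) :=
    Real.rpow_le_rpow_of_nonpos (by positivity) rD4 (by norm_num)
  have hmain2 : ca / 2 * (d : ℝ) ^ (-(3 / 2) : ℝ) ≤ K * aa d σ m := by
    have h6 := mul_le_mul_of_nonneg_left hsum hK0.le
    have h7 := mul_le_mul_of_nonneg_left hexp hC1.le
    linarith
  have hdm : (0 : ℝ) < (d : ℝ) ^ (-(3 / 2) : ℝ) := Real.rpow_pos_of_pos rdpos _
  have haa : 0 < aa d σ m := by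
    by_contra hcon
    push Not at hcon
    have h6 := mul_nonpos_of_nonneg_of_nonpos hK0.le hcon
    have h7 : 0 < ca / 2 * (d : ℝ) ^ (-(3 / 2) : ℝ) := by positivity
    linarith
  have hKd : K ≤ C2 * (d : ℝ) ^ (ε / 2) := by
    rw [hKdef]
    apply mul_le_mul_of_nonneg_left _ hC2.le
    calc (D : ℝ) ^ (C2 * Real.sqrt ε1) ≤ (D : ℝ) ^ (ε / 2) :=
          Real.rpow_le_rpow_of_exponent_le rD1 hCε
      _ ≤ (d : ℝ) ^ (ε / 2) := Real.rpow_le_rpow rDpos.le rDd (by positivity)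
  have hde : (0 : ℝ) < (d : ℝ) ^ (ε / 2) := Real.rpow_pos_of_pos rdpos _
  have h8 : ca / 2 * (d : ℝ) ^ (-(3 / 2) : ℝ) ≤ C2 * (d : ℝ) ^ (ε / 2) * aa d σ m :=
    hmain2.trans (mul_le_mul_of_nonneg_right hKd haa.le)
  have h9 : 2 * C2 ≤ (d : ℝ) ^ (ε / 2) * ca := by
    rwa [div_le_iff₀ hca] at l4
  have h10 : (d : ℝ) ^ (-(3 / 2) : ℝ) = (d : ℝ) ^ (-(3 / 2) - ε : ℝ) *
      ((d : ℝ) ^ (ε / 2) * (d : ℝ) ^ (ε / 2)) := by
    rw [← Real.rpow_add rdpos, ← Real.rpow_add rdpos]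
    congr 1
    ring
  rw [h10] at h8
  have hX : (0 : ℝ) < (d : ℝ) ^ (-(3 / 2) - ε : ℝ) := Real.rpow_pos_of_pos rdpos _
  -- ca/2 * X * e * e ≤ C2 * e * aa, so ca/2 * X * e ≤ C2 * aa; and C2 ≤ e * ca / 2
  have h11 : ca / 2 * (d : ℝ) ^ (-(3 / 2) - ε : ℝ) * (d : ℝ) ^ (ε / 2) ≤ C2 * aa d σ m := by
    have : (ca / 2 * (d : ℝ) ^ (-(3 / 2) - ε : ℝ) * (d : ℝ) ^ (ε / 2)) * (d : ℝ) ^ (ε / 2) ≤
        (C2 * aa d σ m) * (d : ℝ) ^ (ε / 2) := by nlinarith
    exact le_of_mul_le_mul_right this hde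
  have h12 : C2 * (d : ℝ) ^ (-(3 / 2) - ε : ℝ) ≤ C2 * aa d σ m := by
    have h13 : C2 * (d : ℝ) ^ (-(3 / 2) - ε : ℝ) ≤
        ((d : ℝ) ^ (ε / 2) * ca / 2) * (d : ℝ) ^ (-(3 / 2) - ε : ℝ) :=
      mul_le_mul_of_nonneg_right (by linarith) hX.le
    have h14 : ((d : ℝ) ^ (ε / 2) * ca / 2) * (d : ℝ) ^ (-(3 / 2) - ε : ℝ) =
        ca / 2 * (d : ℝ) ^ (-(3 / 2) - ε : ℝ) * (d : ℝ) ^ (ε / 2) := by ring
    linarith
  exact le_of_mul_le_mul_left h12 hC2

end Pool.Agent.H296.GP174
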