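import Pool.Agent.H174.GP.StA

open MeasureTheory ProbabilityTheory Finset

namespace Pool.Agent.H296.GP174

open Pool.Agent.H174.GP

theorem gp_geolaw (h1 : S_Tq) (h2 : S_Tqlaw) : Pool.Agent.H174.GP.S_geolaw := by
  intro d σ x hσ
  have hset : {ω : ℕ → ℝ | ∀ j ∈ Finset.Icc 1 d, geo σ ω j = x j}
      = Set.pi (↑(Finset.Icc 1 d)) (fun j : ℕ => {y : ℝ | Tq (σ * j) y = x j}) := by
    ext ω
    simp only [Set.mem_ofPred_eq, Set.mem_pi, Finset.mem_coe, geo]
  have hmeas : ∀ j ∈ Finset.Icc 1 d, MeasurableSet {y : ℝ | Tq (σ * j) y = x j} := by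
    intro j hj
    have hj1 : 1 ≤ j := (Finset.mem_Icc.mp hj).1
    have hpos : 0 < σ * (j : ℝ) := by
      have : (0 : ℝ) < j := by exact_mod_cast hj1
      positivity
    have hm : Measurable (Tq (σ * (j : ℝ))) := (h1 (σ * j) hpos).2.2.2.1
    exact hm (measurableSet_singleton (x j))
  rw [hset]
  unfold Measure.real PP
  rw [Measure.infinitePi_pi _ hmeas, ENNReal.toReal_prod]
  apply Finset.prod_congr rfl
  intro j hj
  have hj1 : 1 ≤ j := (Finset.mem_Icc.mp hj).1
  have hpos : 0 < σ * (j : ℝ) := by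
    have : (0 : ℝ) < j := by exact_mod_cast hj1
    positivity
  have h := h2 (σ * j) (x j) hpos
  unfold Measure.real at h
  rw [h]

end Pool.Agent.H296.GP174
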